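import Mathlib

set_option autoImplicit false
set_option linter.unusedSectionVars false

namespace Pool.Agent.H.MP_cf3d36_an

open Filter Topology Set

variable {X Y : Type*} [TopologicalSpace X] [TopologicalSpace Y] [CompactSpace X] [CompactSpace Y]

def Ps (V : C(X, ℝ) →L[ℝ] C(Y, ℝ)) : Prop := ∀ f, (∀ x, 0 ≤ f x) → ∀ y, 0 ≤ V f y

lemma Ps.abs {V : C(X, ℝ) →L[ℝ] C(Y, ℝ)} (h : Ps V) {f : C(X, ℝ)} {δ : ℝ} (hf : ‖f‖ ≤ δ)
    (y : Y) : |V f y| ≤ δ * V 1 y := by
  have k := fun x => abs_le.1 ((f.norm_coe_le_norm x).trans hf)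
  have a := h (δ • 1 - f) (fun x => by simpa using (k x).2) y
  have b := h (δ • 1 + f) (fun x => by simpa using neg_le_iff_add_nonneg'.1 (k x).1) y
  simp only [map_sub, map_add, map_smul, ContinuousMap.sub_apply, ContinuousMap.add_apply,
    ContinuousMap.smul_apply, smul_eq_mul] at a b
  exact abs_le.2 ⟨by linarith, by linarith⟩

lemma Ps.norm_le {V : C(X, ℝ) →L[ℝ] C(Y, ℝ)} (h : Ps V) (h1 : ∀ y, V 1 y ≤ 1) (f : C(X, ℝ)) :
    ‖V f‖ ≤ ‖f‖ := (ContinuousMap.norm_le _ (norm_nonneg _)).2 fun y =>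
  (h.abs le_rfl y).trans (mul_le_of_le_one_right (norm_nonneg _) (h1 y))

noncomputable def wc (w : C(Y, ℝ)) (T : C(Y, X)) : C(X, ℝ) →L[ℝ] C(Y, ℝ) :=
  LinearMap.mkContinuous
    { toFun := fun f => w * f.comp T
      map_add' := fun a b => mul_add w (a.comp T) (b.comp T)
      map_smul' := fun a f => mul_smul_comm a w (f.comp T) } ‖w‖ fun f => (norm_mul_le _ _).trans
    (mul_le_mul_of_nonneg_left ((ContinuousMap.norm_le _ (norm_nonneg _)).2 fun _ =>
      f.norm_coe_le_norm _) (norm_nonneg _))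

@[simp] lemma wc_apply (w : C(Y, ℝ)) (T : C(Y, X)) (f : C(X, ℝ)) (y : Y) :
    wc w T f y = w y * f (T y) := rfl

lemma wc_ps {w : C(Y, ℝ)} (h : ∀ y, 0 ≤ w y) (T : C(Y, X)) : Ps (wc w T) :=
  fun _ hf y => mul_nonneg (h y) (hf _)

lemma wc1 (T : C(Y, X)) : Ps (wc 1 T) := wc_ps (fun _ => zero_le_one) T

lemma Ps.add {V W : C(X, ℝ) →L[ℝ] C(Y, ℝ)} (h : Ps V) (k : Ps W) : Ps (V + W) :=
  fun f hf y => add_nonneg (h f hf y) (k f hf y)

lemma Ps.smul {V : C(X, ℝ) →L[ℝ] C(Y, ℝ)} (h : Ps V) {a : ℝ} (k : 0 ≤ a) : Ps (a • V) :=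
  fun f hf y => mul_nonneg k (h f hf y)

lemma Ps.comp {Z : Type*} [TopologicalSpace Z] [CompactSpace Z] {V : C(Y, ℝ) →L[ℝ] C(Z, ℝ)}
    {W : C(X, ℝ) →L[ℝ] C(Y, ℝ)} (h : Ps V) (k : Ps W) : Ps (V ∘L W) := fun f hf => h _ (k f hf)

lemma ps0 : Ps (0 : C(X, ℝ) →L[ℝ] C(Y, ℝ)) := fun _ _ _ => le_rfl

lemma wc_one (w : C(Y, ℝ)) (T : C(Y, X)) : wc w T 1 = w := mul_one w

abbrev I := unitInterval
abbrev D := ℕ → Bool
abbrev A := C(D, ℝ)

def c (d : Bool) : C(D, D) := ⟨fun σ n => n.casesOn (motive := fun _ => Bool) d σ,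
  continuous_pi fun n => by
    cases n
    exacts [continuous_const, continuous_apply _]⟩

def tl {Z : Type} [TopologicalSpace Z] : C(ℕ → Z, ℕ → Z) := ⟨fun σ n => σ (n + 1), by fun_prop⟩

lemma c_tl (σ : D) : c (σ 0) (tl σ) = σ := funext fun n => by cases n <;> rfl

noncomputable def e (d : Bool) : A := ⟨fun σ => if σ 0 = d then 1 else 0,
  (continuous_of_discreteTopology (f := fun b => if b = d then (1 : ℝ) else 0)).comp
    (continuous_apply 0)⟩

noncomputable def s (d : Bool) : A →L[ℝ] A := wc 1 (c d)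
noncomputable def g (d : Bool) : A →L[ℝ] A := wc (e d) tl

lemma e0 (d : Bool) (σ : D) : 0 ≤ e d σ := by
  simp only [e, ContinuousMap.coe_mk]
  positivity

lemma gn (d : Bool) (f : A) : ‖g d f‖ ≤ ‖f‖ := (wc_ps (e0 d) tl).norm_le (fun σ => by
  simp only [wc_one, e, ContinuousMap.coe_mk]
  split_ifs <;> simp) f

lemma e1 : e false + e true = 1 := ContinuousMap.ext fun σ => by
  cases h : σ 0 <;> simp [e, h]

lemma sg (d : Bool) (h : A) : s d (g d h) = h := ContinuousMap.ext fun σ => by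
  simp [s, g, e, c, tl]

lemma sg' (d : Bool) (h : A) : s d (g (!d) h) = 0 := ContinuousMap.ext fun σ => by
  simp [s, g, e, c]

lemma gs (h : A) : g false (s false h) + g true (s true h) = h := ContinuousMap.ext fun σ => by
  have := c_tl σ
  cases k : σ 0 <;> simp_all [s, g, e]

def Sm (n : ℕ) (δ : ℝ) (h : A) : Prop := ∀ σ τ : D, (∀ i < n, σ i = τ i) → |h σ - h τ| ≤ δ

lemma Sm.step {n : ℕ} {δ : ℝ} {h : A} (k : Sm (n + 1) δ h) (d : Bool) : Sm n δ (s d h) :=
  fun σ τ a => by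
    simpa [s] using k (c d σ) (c d τ) fun i hi => by
      cases i
      exacts [rfl, a _ (Nat.lt_of_succ_lt_succ hi)]

lemma exSm (h : A) {δ : ℝ} (hδ : 0 < δ) : ∃ n, Sm n δ h := by
  let := PiNat.metricSpaceOfDiscreteUniformity (E := fun _ => Bool) fun _ => rfl
  obtain ⟨r, r0, hr⟩ := Metric.uniformContinuous_iff.1
    (CompactSpace.uniformContinuous_of_continuous h.continuous) δ hδ
  obtain ⟨n, hn⟩ := exists_pow_lt_of_lt_one r0 one_half_lt_one
  exact ⟨n, fun σ τ k => (hr ((PiNat.mem_cylinder_iff_dist_le.1 k).trans_lt hn)).le⟩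

lemma base {V : A →L[ℝ] C(X, ℝ)} (h : Ps V) (h1 : V 1 = 1) {δ : ℝ} {f : A} (k : Sm 0 δ f) (σ : D) :
    ‖V f - f σ • 1‖ ≤ δ := by
  rw [← h1, ← map_smul, ← map_sub]
  exact (h.norm_le (by simp [h1]) _).trans ((ContinuousMap.norm_le _ ((abs_nonneg _).trans
    (k σ σ fun _ _ => rfl))).2 fun τ => by simpa using k τ σ (by simp))

lemma base2 {V W : A →L[ℝ] C(X, ℝ)} (h : Ps V) (h1 : V 1 = 1) (h' : Ps W) (h2 : W 1 = 1) {δ : ℝ}
    {f : A} (k : Sm 0 δ f) : ‖V f - W f‖ ≤ 2 * δ := by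
  linarith [base h h1 k default, base h' h2 k default, norm_sub_le_norm_sub_add_norm_sub (V f)
    (f default • 1) (W f), norm_sub_rev (W f) (f default • 1)]

lemma fix {L0 L1 : C(X, ℝ) →L[ℝ] C(X, ℝ)} {K : A →L[ℝ] C(X, ℝ)} (p0 : Ps L0) (p1 : Ps L1)
    (pK : Ps K) (h : L0 1 + L1 1 + K 1 = 1) : ∃ V : A →L[ℝ] C(X, ℝ), Ps V ∧ V 1 = 1 ∧
      ∀ f, V f = L0 (V (s false f)) + L1 (V (s true f)) + K f := by
  set V : ℕ → A →L[ℝ] C(X, ℝ) := fun n => n.rec (wc 1 (.const _ default))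
    fun _ V => L0 ∘L V ∘L s false + L1 ∘L V ∘L s true + K
  have v0 : ∀ n f, V (n + 1) f = L0 (V n (s false f)) + L1 (V n (s true f)) + K f := fun _ _ => rfl
  have v1 : ∀ n, Ps (V n) ∧ V n 1 = 1 := fun n => by
    induction n with
    | zero => exact ⟨wc1 _, wc_one _ _⟩
    | succ n ih => exact ⟨((p0.comp (ih.1.comp (wc1 _))).add (p1.comp (ih.1.comp (wc1 _)))).add pK, by
          rw [v0, s, s, wc_one, wc_one, ih.2, h]⟩
  have v2 : ∀ δ n a b f, Sm n δ f → ‖V (a + n) f - V (b + n) f‖ ≤ 2 * δ := fun δ n => by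
    induction n with
    | zero => exact fun a b f k => base2 (v1 a).1 (v1 a).2 (v1 b).1 (v1 b).2 k
    | succ n ih =>
      intro a b f k
      have d0 : 0 ≤ 2 * δ := (norm_nonneg _).trans (ih a b _ (k.step false))
      rw [← add_assoc, ← add_assoc, v0, v0, add_sub_add_right_eq_sub, add_sub_add_comm, ← map_sub,
        ← map_sub]
      refine (ContinuousMap.norm_le _ d0).2 fun y => (abs_add_le _ _).trans ((add_le_add
        (p0.abs (ih a b _ (k.step false)) y) (p1.abs (ih a b _ (k.step true)) y)).trans ?_)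
      have : L0 1 y + L1 1 y + K 1 y = 1 := DFunLike.congr_fun h y
      have : 0 ≤ K 1 y := pK 1 (fun _ => zero_le_one) y
      nlinarith
  choose F hF using fun f => cauchySeq_tendsto_of_complete (u := fun n => V n f)
    (Metric.cauchySeq_iff'.2 fun ε hε => by
      obtain ⟨n, hn⟩ := exSm f (show 0 < ε / 3 by positivity)
      refine ⟨n, fun m hm => ?_⟩
      have := v2 _ n (m - n) 0 f hn
      rw [Nat.sub_add_cancel hm, zero_add, ← dist_eq_norm] at this
      linarith)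
  refine ⟨continuousLinearMapOfTendsto V (tendsto_pi_nhds.2 hF), fun f hf y =>
    ge_of_tendsto' (((ContinuousEvalConst.continuous_eval_const y).tendsto _).comp (hF f)) fun n =>
      (v1 n).1 f hf y, tendsto_nhds_unique (hF 1) (by
      simpa only [(v1 _).2] using tendsto_const_nhds), fun f => tendsto_nhds_unique
    ((tendsto_add_atTop_iff_nat 1).2 (hF f)) ?_⟩
  exact (((L0.continuous.tendsto _).comp (hF _)).add ((L1.continuous.tendsto _).comp
    (hF _))).add_const _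

lemma bern : ∃ B : A →L[ℝ] C(ℕ → I, ℝ), Ps B ∧ B 1 = 1 ∧ ∀ (f : A) (y : ℕ → I) (a : ℝ),
    (∀ σ : D, (∀ n, y n ≠ if σ n then 0 else 1) → f σ = a) → B f y = a := by
  set p : C(ℕ → I, ℝ) := ⟨fun y => y 0, by fun_prop⟩
  obtain ⟨B, b1, b2, b3⟩ := fix (K := 0) (wc_ps (w := 1 - p) (fun y => sub_nonneg.2 (y 0).2.2) tl)
    (wc_ps (w := p) (fun y => (y 0).2.1) tl) ps0 (by simp [wc_one])
  refine ⟨B, b1, b2, fun f y a h => eq_of_abs_sub_le_all fun δ hδ => ?_⟩
  obtain ⟨n, hn⟩ := exSm f hδ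
  induction n generalizing f y with
  | zero =>
    rw [← h (fun n => decide (y n ≠ 0)) fun n => by by_cases k : y n = 0 <;> simp [k]]
    simpa using (ContinuousMap.norm_coe_le_norm _ y).trans (base b1 b2 hn _)
  | succ n ih =>
    have k : ∀ d : Bool, y 0 ≠ (if d then 0 else 1) → |B (s d f) (tl y) - a| ≤ δ := fun d hd =>
      ih _ _ (fun σ hσ => (one_mul _).trans (h _ fun n => by
        cases n
        exacts [hd, hσ _])) (hn.step d)
    have : B f y = (1 - y 0) * B (s false f) (tl y) + y 0 * B (s true f) (tl y) := by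
      rw [b3]
      simp [p]
    rw [this]
    by_cases h0 : y 0 = 0
    · simpa [h0] using k false (by simp [h0])
    by_cases h1 : y 0 = 1
    · simpa [h1] using k true (by simp [h1])
    have a0 := abs_le.1 (k false h1)
    have a1 := abs_le.1 (k true h0)
    have := (y 0).2.1
    have := sub_nonneg.2 (y 0).2.2
    exact abs_le.2 ⟨by nlinarith, by nlinarith⟩

lemma proj {P : A →L[ℝ] A} (p1 : Ps P) (p2 : P 1 = 1) (p3 : ∀ f, P (P f) = P f) :
    ∃ W : A →L[ℝ] A, Ps W ∧ W 1 = 1 ∧ (∀ f, W (W f) = W f) ∧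
      (∀ f, s false (W f) = W (s false f)) ∧ (∀ f, s true (W f) = P (s true f)) ∧
      (∀ f, W (g false f) = g false (W f)) ∧ ∀ f, W (g true f) = g true (P f) := by
  obtain ⟨W, w1, w2, w3⟩ := fix (L1 := 0) (K := g true ∘L P ∘L s true) (wc_ps (e0 false) tl)
    ps0 ((wc_ps (e0 true) tl).comp (p1.comp (wc1 _))) (by
      simp [s, g, wc_one, p2, e1])
  replace w3 : ∀ f, W f = g false (W (s false f)) + g true (P (s true f)) := by simpa [g] using w3
  have a : ∀ f, s false (W f) = W (s false f) := fun f => by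
    rw [w3 f, map_add, sg, show s false (g true _) = 0 from sg' false _, add_zero]
  have b : ∀ f, s true (W f) = P (s true f) := fun f => by
    rw [w3 f, map_add, sg, show s true (g false _) = 0 from sg' true _, zero_add]
  refine ⟨W, w1, w2, fun f => sub_eq_zero.1 (norm_le_zero_iff.1 (le_of_forall_pos_le_add
    fun δ hδ => ?_)), a, b, fun f => ?_, fun f => ?_⟩
  · obtain ⟨n, hn⟩ := exSm f (half_pos hδ)
    induction n generalizing f with
    | zero =>
      have := base2 (w1.comp w1) (by simp [w2]) w1 w2 hn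
      simpa [mul_div_cancel₀] using this
    | succ n ih =>
      rw [w3 (W f), a, b, p3, w3 f, add_sub_add_right_eq_sub, ← map_sub]
      exact (gn _ _).trans (ih _ (hn.step false))
  · rw [w3, sg, show s true (g false _) = 0 from sg' true _, map_zero, map_zero, add_zero]
  · rw [w3, sg, show s false (g true _) = 0 from sg' false _, map_zero, map_zero, zero_add]

variable (K : Type*) [MetricSpace K] [CompactSpace K]

lemma ext [Uncountable K] : ∃ (ρ : C(K, ℝ) →L[ℝ] A) (E : A →L[ℝ] C(K, ℝ)), Ps ρ ∧ ρ 1 = 1 ∧ Ps E ∧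
    E 1 = 1 ∧ ∀ f, ρ (E f) = f := by
  obtain ⟨B, b1, b2, b3⟩ := bern
  obtain ⟨ι, -, i1, i2⟩ := isClosed_univ.exists_nat_bool_injection_of_not_countable
    (not_countable_univ (α := K))
  have cl : ∀ n d, IsClosed (ι '' {σ | σ n = d}) := fun n d =>
    ((isClosed_eq (continuous_apply n) continuous_const).isCompact.image i1).isClosed
  choose p p0 p1 p2 using fun n => exists_continuous_zero_one_of_isClosed (cl n false) (cl n true)
    (disjoint_image_of_injective i2 (disjoint_left.2 fun σ a b => by simp_all))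
  refine ⟨wc 1 ⟨ι, i1⟩, wc 1 ⟨fun x n => ⟨p n x, p2 n x⟩, by fun_prop⟩ ∘L B, wc1 _,
    wc_one _ _, (wc1 _).comp b1, by simp [b2, wc_one], fun f =>
    ContinuousMap.ext fun σ => ?_⟩
  simpa using b3 f (fun n => ⟨p n (ι σ), p2 n _⟩) (f σ) fun τ h => congrArg f (funext fun n => by
    have := h n
    cases k : σ n
    · simpa [Subtype.ext_iff, show p n (ι σ) = 0 from p0 n ⟨σ, k, rfl⟩] using
        fun k' : τ n = true => this (by simp [k', show p n (ι σ) = 0 from
          p0 n ⟨σ, k, rfl⟩])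
    · simpa using fun k' : τ n = false => this (by
        simp [k', show p n (ι σ) = 1 from p1 n ⟨σ, k, rfl⟩]))

lemma mil [Nonempty K] : ∃ (j : C(K, ℝ) →L[ℝ] A) (U : A →L[ℝ] C(K, ℝ)), Ps j ∧ j 1 = 1 ∧ Ps U ∧
    U 1 = 1 ∧ ∀ f, U (j f) = f := by
  obtain ⟨B, b1, b2, b3⟩ := bern
  obtain ⟨q, hq⟩ := exists_surjective_nat (ℕ × ℕ)
  set v : ℕ → K → ℝ := fun n x => ((q n).2 + 1) * dist x (TopologicalSpace.denseSeq K (q n).1) - 1
  set R := {z : D × K | ∀ n, if z.1 n then 0 ≤ v n z.2 else v n z.2 ≤ 1}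
  have r1 : IsClosed R := by
    simp only [R, ofPred_forall]
    refine isClosed_iInter fun n => ?_
    have : {z : D × K | if z.1 n then 0 ≤ v n z.2 else v n z.2 ≤ 1} = {z | z.1 n = true} ∩
        {z | 0 ≤ v n z.2} ∪ {z | z.1 n = false} ∩ {z | v n z.2 ≤ 1} := Set.ext fun z => by
      cases h : z.1 n <;> simp [h]
    rw [this]
    exact ((isClosed_eq (by fun_prop) continuous_const).inter (isClosed_le continuous_const
      (by fun_prop))).union ((isClosed_eq (by fun_prop) continuous_const).inter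
        (isClosed_le (by fun_prop) continuous_const))
  have r2 : ∀ σ x y, (σ, x) ∈ R → (σ, y) ∈ R → x = y := fun σ x y hx hy => by_contra fun hc => by
    have key : ∀ x y, 0 < dist x y → ∃ m : ℕ, ∀ k ≥ m, ∃ n, v n x < 0 ∧ 1 < v n y := fun x y h => by
      obtain ⟨m, hm⟩ := exists_nat_gt (3 / dist x y)
      refine ⟨m, fun k hk => ?_⟩
      obtain ⟨i, hi⟩ := (TopologicalSpace.denseRange_denseSeq K).exists_dist_lt x
        (show 0 < 1 / (k + 1 : ℝ) by positivity)
      obtain ⟨n, hn⟩ := hq (i, k)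
      have : (m : ℝ) ≤ k := by exact_mod_cast hk
      rw [div_lt_iff₀ h] at hm
      rw [lt_div_iff₀' (by positivity)] at hi
      refine ⟨n, by simp only [v, hn]; linarith, ?_⟩
      simp only [v, hn]
      nlinarith [dist_triangle_right x y (TopologicalSpace.denseSeq K i)]
    obtain ⟨m, hm⟩ := key x y (dist_pos.2 hc)
    obtain ⟨n, h1, h2⟩ := hm m le_rfl
    have := hx n
    have := hy n
    cases k : σ n <;> simp only [k] at * <;> simp_all <;> linarith
  have r3 : ∀ (x : K) (σ : D), (∀ n, projIcc 0 1 zero_le_one (v n x) ≠ if σ n then 0 else 1) →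
      (σ, x) ∈ R := fun x σ h n => by
    have := h n
    cases k : σ n <;> simp only [k] at * <;> refine le_of_not_ge fun h => this ?_
    exacts [projIcc_of_right_le _ h, projIcc_of_le_left _ h]
  have := isCompact_iff_compactSpace.1 r1.isCompact
  have emb := (show Continuous fun z : R => z.1.1 by fun_prop).isClosedEmbedding fun z w h =>
    Subtype.ext (Prod.ext h (r2 _ _ _ z.2 (show (z.1.1, w.1.2) ∈ R from
      (show z.1.1 = w.1.1 from h) ▸ w.2)))
  obtain ⟨r, r4, -, r5⟩ := PiNat.exists_retraction_subtype_of_isClosed emb.isClosed_range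
    ⟨_, ⟨(fun n => decide (0 ≤ v n (Classical.arbitrary K)), Classical.arbitrary K), fun n => by
      by_cases h : 0 ≤ v n (Classical.arbitrary K) <;> simp [h]
      linarith⟩, rfl⟩
  refine ⟨wc 1 ⟨fun σ => (emb.isEmbedding.toHomeomorph.symm (r σ)).1.2, by fun_prop⟩,
    wc 1 ⟨fun x n => projIcc 0 1 zero_le_one (v n x), continuous_pi fun n =>
      continuous_projIcc.comp (by fun_prop)⟩ ∘L B, wc1 _,
    wc_one _ _, (wc1 _).comp b1, by simp [b2, wc_one], fun f =>
    ContinuousMap.ext fun x => (one_mul _).trans (b3 _ _ _ fun σ h => (one_mul _).trans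
      (congrArg f ?_))⟩
  have := r4 (emb.isEmbedding.toHomeomorph ⟨_, r3 x σ h⟩)
  change r σ = _ at this
  change (emb.isEmbedding.toHomeomorph.symm (r σ)).1.2 = x
  rw [this, Homeomorph.symm_apply_apply]

end Pool.Agent.H.MP_cf3d36_an
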