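import Pool.Agent.H.MP_cf3d36_an.A

set_option autoImplicit false

namespace Pool.Agent.H.MP_cf3d36_an

open Set

lemma bij {E : Type*} [NormedAddCommGroup E] [NormedSpace ℝ E] [CompleteSpace E] (N : E →L[ℝ] E)
    (h : ∀ x, ‖N x‖ ≤ 3 / 4 * ‖x‖) : (∀ x, x + N x = 0 → x = 0) ∧ ∀ y, ∃ x, x + N x = y := by
  obtain ⟨u, hu⟩ := isUnit_one_sub_of_norm_lt_one (x := -N) ((norm_neg N).trans_lt
    ((N.opNorm_le_bound (by norm_num) h).trans_lt (by norm_num)))
  refine ⟨fun x hx => norm_le_zero_iff.1 ?_, fun y => ⟨u⁻¹.1 y, ?_⟩⟩
  · have := h x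
    rw [eq_neg_of_add_eq_zero_right hx, norm_neg] at this
    linarith
  · simpa [hu] using DFunLike.congr_fun u.mul_inv y

lemma sn (d : Bool) (f : A) : ‖s d f‖ ≤ ‖f‖ := (wc1 _).norm_le (by simp) f

noncomputable def Φ (W L M N : A →L[ℝ] A) (x : A) : A := x + ((1 / 100 : ℝ) • W (x + N x) +
  (1 / 10 : ℝ) • L (W x) + (1 / 10 : ℝ) • M (x + N x - W (x + N x)))

lemma est {W L M N : A →L[ℝ] A} (w : ∀ f, ‖W f‖ ≤ ‖f‖) (l : ∀ f, ‖L f‖ ≤ ‖f‖) (m : ∀ f, ‖M f‖ ≤ ‖f‖)
    (n : ∀ f, ‖N f‖ ≤ ‖f‖) : (∀ x, Φ W L M N x = 0 → x = 0) ∧ ∀ y, ∃ x, Φ W L M N x = y := by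
  refine bij ((1 / 100 : ℝ) • W * (1 + N) + (1 / 10 : ℝ) • L * W +
    (1 / 10 : ℝ) • M * ((1 - W) * (1 + N))) fun x => ?_
  have a : ‖x + N x‖ ≤ 2 * ‖x‖ := (norm_add_le _ _).trans (by linarith [n x])
  change ‖(1 / 100 : ℝ) • W (x + N x) + (1 / 10 : ℝ) • L (W x) +
    (1 / 10 : ℝ) • M (x + N x - W (x + N x))‖ ≤ _
  refine norm_add₃_le.trans ?_
  rw [norm_smul, norm_smul, norm_smul, Real.norm_of_nonneg (by norm_num),
    Real.norm_of_nonneg (by norm_num)]
  linarith [w (x + N x), l (W x), w x, m (x + N x - W (x + N x)), norm_sub_le (x + N x) (W (x + N x)),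
    norm_nonneg x]

variable (K : Type*) [MetricSpace K] [CompactSpace K] [Uncountable K]

lemma main : (∃ T : C(K, ℝ) ≃L[ℝ] A, Ps (T : C(K, ℝ) →L[ℝ] A)) ∧
    ∃ T : A ≃L[ℝ] C(K, ℝ), Ps (T : A →L[ℝ] C(K, ℝ)) := by
  obtain ⟨ρ, E, r1, r2, e1, e2, re⟩ := ext K
  obtain ⟨j, U, j1, j2, u1, u2, uj⟩ := mil K
  obtain ⟨W, w1, w2, ww, sw, tw, wg, wt⟩ := proj (j1.comp u1) (by simp [u2, j2]) (by simp [uj])
  simp only [ContinuousLinearMap.comp_apply] at tw wt
  have wn := w1.norm_le (by simp [w2])
  have s0 : ∀ f, s false (g true f) = 0 := sg' false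
  have s1 : ∀ f, s true (g false f) = 0 := sg' true
  have sp : ∀ d, Ps (s d) := fun d => wc1 _
  have gp : ∀ d, Ps (g d) := fun d => wc_ps (e0 d) _
  have i : Ps (ContinuousLinearMap.id ℝ C(K, ℝ)) := fun _ h => h
  constructor
  · set G := (10 : ℝ) • s false + (100 : ℝ) • W
    obtain ⟨b1, b2⟩ := est wn (sn false) (gn false) (N := ρ ∘L U ∘L s true) fun f =>
      (r1.norm_le (by simp [r2]) _).trans ((u1.norm_le (by simp [u2]) _).trans (sn _ _))
    set L : A → A → A := fun u z => (1 / 100 : ℝ) • W u + (1 / 10 : ℝ) • g false (u - W u) + g true z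
    have key : ∀ h, Φ W (s false) (g false) (ρ ∘L U ∘L s true) h =
        L (h + ρ (U (s true h)) + G h) (s true h - j (U (s true h))) := fun h => by
      have := gs (h - W h)
      simp only [map_sub, sw, tw] at this
      simp only [Φ, L, G, _root_.add_apply, _root_.smul_apply, map_add, map_sub,
        map_smul, ContinuousLinearMap.comp_apply, ww, sw]
      linear_combination (norm := module) -this
    have inj : ∀ u z u' z', U z = 0 → U z' = 0 → L u z = L u' z' → u = u' ∧ z = z' :=
      fun u z u' z' h h' k => by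
      have a := congrArg W k
      have b := congrArg (s false) k
      have c := congrArg (s true) k
      simp only [L, map_add, map_smul, map_sub, ww, wg, wt, h, h', map_zero, sg, s0, s1, sw, tw,
        sub_self, smul_zero, add_zero] at a b c
      replace a : W u = W u' := by linear_combination (norm := module) (100 : ℝ) • a
      have d := congrArg (s false) a
      have e := congrArg (s true) a
      simp only [sw, tw] at d e
      exact ⟨by linear_combination (norm := module) (10 : ℝ) • b + a - (1 / 10 : ℝ) • d,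
        by linear_combination (norm := module) c - (1 / 100 : ℝ) • e⟩
    set T := j ∘L (.id ℝ _ + E ∘L G ∘L ρ) + s true ∘L ρ
    have t : ∀ f, T f = j f + j (E (G (ρ f))) + s true (ρ f) := fun f => by simp [T]
    refine ⟨.ofBijective T (LinearMap.ker_eq_bot'.2 fun f (hf : T f = 0) => ?_)
      (LinearMap.range_eq_top.2 fun k => ?_), (j1.comp (i.add (e1.comp ((((sp _).smul
        (by norm_num)).add (w1.smul (by norm_num))).comp r1)))).add ((sp _).comp r1)⟩
    · rw [t] at hf
      have a := congrArg U hf
      simp only [map_add, uj, map_zero] at a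
      have b := congrArg ρ a
      have c := congrArg j a
      simp only [map_add, re, map_zero] at b c
      have : ρ f = 0 := b1 _ (by
        rw [key, show ρ f + _ + _ = 0 by linear_combination (norm := module) b,
          show s true (ρ f) - _ = 0 by linear_combination (norm := module) hf - c]
        simp [L])
      simpa [this] using a
    · obtain ⟨h, hh⟩ := b2 (L (ρ (U k)) (k - j (U k)))
      obtain ⟨a, b⟩ := inj _ _ _ _ (by simp [uj]) (by simp [uj]) ((key h).symm.trans hh)
      have : ρ (U k - E (G h) - U (s true h)) = h := by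
        simp only [map_sub, re]
        linear_combination (norm := module) -a
      refine ⟨U k - E (G h) - U (s true h), (t _).trans ?_⟩
      rw [this]
      simp only [map_sub]
      linear_combination (norm := module) b
  · set G := (10 : ℝ) • g false + (100 : ℝ) • W
    obtain ⟨b1, b2⟩ := est wn (gn false) (sn false) (N := g true ∘L j ∘L E) fun f =>
      (gn _ _).trans ((j1.norm_le (by simp [j2]) _).trans (e1.norm_le (by simp [e2]) _))
    set L : A → A := fun u => (1 / 100 : ℝ) • W u + (1 / 10 : ℝ) • s false (u - W u)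
    have key : ∀ h z, U z = 0 → Φ W (g false) (s false) (g true ∘L j ∘L E) h =
        L (h + g true (j (E h)) + G h + g true z) := fun h z hz => by
      simp only [Φ, L, G, _root_.add_apply, _root_.smul_apply, map_add, map_sub,
        map_smul, ContinuousLinearMap.comp_apply, ww, wg, wt, hz, map_zero, sg, s0]
      module
    set T := U + E ∘L (G ∘L ρ ∘L U + g true)
    have t : ∀ k, T k = U k + E (G (ρ (U k))) + E (g true k) := fun f => by simp [T, add_assoc]
    refine ⟨.ofBijective T (LinearMap.ker_eq_bot'.2 fun k (hk : T k = 0) => ?_)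
      (LinearMap.range_eq_top.2 fun y => ?_), u1.add (e1.comp (((((gp _).smul
        (by norm_num)).add (w1.smul (by norm_num))).comp (r1.comp u1)).add (gp _)))⟩
    · rw [t] at hk
      have a := congrArg ρ hk
      simp only [map_add, re, map_zero] at a
      have b := congrArg E a
      simp only [map_add, map_zero] at b
      have c : E (ρ (U k)) = U k := by linear_combination (norm := module) b - hk
      have : ρ (U k) = 0 := b1 _ (by
        rw [key _ (k - j (U k)) (by simp [uj]), c, show ρ (U k) + _ + _ + _ = 0 by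
          rw [map_sub]
          linear_combination (norm := module) a]
        simp [L])
      simpa [this, sg] using congrArg (s true) a
    · set u := ρ y - g true (j (y - E (ρ y)))
      obtain ⟨h, hh⟩ := b2 (L u)
      set v := s true (u - (h + g true (j (E h))))
      have k := (key h (v - j (U v)) (by simp [uj])).symm.trans hh
      set r := h + g true (j (E h)) + G h + g true (v - j (U v))
      have a := congrArg W k
      simp only [L, map_add, map_smul, map_sub, ← sw, ww, sub_self, smul_zero, add_zero] at a
      replace a : W r = W u := by linear_combination (norm := module) (100 : ℝ) • a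
      have b : s false (r - W r) = s false (u - W u) := by
        linear_combination (norm := module) (10 : ℝ) • k - (1 / 10 : ℝ) • a
      have c : s true (r - W r) = s true (u - W u) := by
        simp only [r, v, G, _root_.add_apply, _root_.smul_apply, map_add, map_sub, map_smul, sg,
          s1, tw, uj, map_zero]
        module
      have d : r = u := by
        have := gs (r - W r)
        rw [b, c, gs] at this
        linear_combination (norm := module) a - this
      have e : U (j (y - E (ρ y) + E h) + (v - j (U v))) = y - E (ρ y) + E h := by simp [uj]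
      refine ⟨j (y - E (ρ y) + E h) + (v - j (U v)), (t _).trans ?_⟩
      have d' := congrArg E d
      rw [e, show ρ (y - E (ρ y) + E h) = h by simp [re]]
      simp only [r, u, map_add, map_sub] at d' ⊢
      linear_combination (norm := module) d'

lemma unc : Uncountable unitInterval := by
  rw [← Cardinal.aleph0_lt_mk_iff, Cardinal.mk_Icc_real one_pos]
  exact Cardinal.aleph0_lt_continuum

end Pool.Agent.H.MP_cf3d36_an
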